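import Pool.Agent.H334R2.CM.Defs
import Pool.Agent.H334R2.CM.S.DIM1
import Pool.Agent.H334R2.CM.S.LOC
import Pool.Agent.H334R2.CM.S.HOMC
set_option autoImplicit false
open scoped Matrix MatrixGroups
universe u
namespace CM

namespace DIM3

section zm
variable {q : ℕ} [Fact q.Prime]

lemma qne2 (hq : q % 4 = 3) : q ≠ 2 := by rintro rfl; simp at hq

lemma sum_split {M : Type*} [AddCommMonoid M] (f : ZMod q → M) :
    ∑ x, f x = f 0 + ∑ u : (ZMod q)ˣ, f (u : ZMod q) := by
  classical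
  rw [Fintype.sum_eq_add_sum_subtype_ne f 0]
  congr 1
  exact (Fintype.sum_equiv (unitsEquivNeZero (G₀ := ZMod q)) (fun u => f (u : ZMod q))
    (fun x => f x.1) (fun u => rfl)).symm

lemma mem_Sq (a : (ZMod q)ˣ) : a ∈ Sq q ↔ IsSquare a := by simp [Sq]

lemma unit_sq (a : (ZMod q)ˣ) : IsSquare a ↔ IsSquare (a : ZMod q) := by
  constructor
  · rintro ⟨b, rfl⟩
    exact ⟨(b : ZMod q), by simp⟩
  · rintro ⟨b, hb⟩
    have hb0 : b ≠ 0 := by
      rintro rfl
      exact a.ne_zero (by simpa using hb)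
    exact ⟨Units.mk0 b hb0, by ext; simpa using hb⟩

lemma neg_one_not (hq : q % 4 = 3) : ¬ IsSquare (-1 : (ZMod q)ˣ) := by
  rw [unit_sq]
  have := (ZMod.exists_sq_eq_neg_one_iff (p := q)).not
  rw [Units.val_neg, Units.val_one, this]
  simp [hq]

lemma neg_iff (hq : q % 4 = 3) (a : (ZMod q)ˣ) : -a ∈ Sq q ↔ a ∉ Sq q := by
  rw [mem_Sq, mem_Sq]
  constructor
  · rintro ⟨b, hb⟩ ⟨c, hc⟩
    apply neg_one_not hq
    refine ⟨b * c⁻¹, ?_⟩
    have h1 : (-1 : (ZMod q)ˣ) = -a * a⁻¹ := by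
      rw [neg_mul, mul_inv_cancel]
    rw [h1, hb, hc, mul_inv]
    exact mul_mul_mul_comm _ _ _ _
  · intro h
    rw [unit_sq] at h ⊢
    have h1 := (quadraticChar_neg_one_iff_not_isSquare (F := ZMod q)).2 h
    have h2 : ¬ IsSquare (-1 : ZMod q) := by
      have := neg_one_not hq
      rw [unit_sq] at this
      simpa using this
    have h3 := (quadraticChar_neg_one_iff_not_isSquare (F := ZMod q)).2 h2
    have h4 : quadraticChar (ZMod q) (-(a : ZMod q)) = 1 := by
      rw [← neg_one_mul, map_mul, h1, h3]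
      norm_num
    rw [Units.val_neg]
    exact (quadraticChar_one_iff_isSquare (neg_ne_zero.2 a.ne_zero)).1 h4

lemma sum_sq {M : Type*} [AddCommMonoid M] (hq : q % 4 = 3) (f : (ZMod q)ˣ → M) :
    ∑ u, f u = ∑ u ∈ Sq q, f u + ∑ u ∈ Sq q, f (-u) := by
  classical
  rw [← Finset.sum_add_sum_compl (Sq q) f]
  congr 1
  refine (Finset.sum_bij (fun u _ => -u) ?_ ?_ ?_ ?_).symm
  · intro u hu
    rw [Finset.mem_compl, neg_iff hq]
    exact fun h => h hu
  · intro a _ b _ h
    exact neg_injective h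
  · intro b hb
    rw [Finset.mem_compl] at hb
    exact ⟨-b, (neg_iff hq b).2 hb, neg_neg b⟩
  · intro a _
    rfl

lemma card_Sq (hq : q % 4 = 3) : (Sq q).card = (q - 1) / 2 := by
  have h := sum_sq hq (fun _ : (ZMod q)ˣ => 1)
  simp only [Finset.sum_const, smul_eq_mul, mul_one] at h
  rw [Finset.card_univ, ZMod.card_units] at h
  omega

end zm

section
variable {q : ℕ} [Fact q.Prime] {G : Type} [Group G] (D : BN q G)
  {k : Type u} [Field k] [CharP k 2] (ψ : AddChar (ZMod q) k)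

include D in
lemma fin : Finite G := by
  classical
  have h : Function.Surjective (fun s : (ZMod q × (ZMod q)ˣ) ⊕ (ZMod q × (ZMod q)ˣ × ZMod q) =>
      match s with
      | .inl (x, a) => D.n x * D.d a
      | .inr (x, a, y) => D.n x * D.w * D.d a * D.n y) := by
    intro g
    rcases D.cover g with ⟨x, a, h⟩ | ⟨x, a, y, h⟩
    · exact ⟨.inl (x, a), h.symm⟩
    · exact ⟨.inr (x, a, y), h.symm⟩
  exact Finite.of_surjective _ h

lemma fd [Finite G] : FiniteDimensional k (MonoidAlgebra k G) :=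
  Module.Finite.equiv (MonoidAlgebra.coeffLinearEquiv (R := k) (S := k) (M := G)).symm

lemma d_one : D.d 1 = 1 := by
  have h := D.d_mul 1 1
  rw [mul_one] at h
  exact (left_eq_mul.1 h)

lemma n_zero : D.n 0 = 1 := by
  have h := D.n_add 0 0
  rw [add_zero] at h
  exact (left_eq_mul.1 h)

/-- the element `n x` of the group algebra -/
noncomputable def gn (x : ZMod q) : MonoidAlgebra k G := MonoidAlgebra.single (D.n x) 1

lemma gd_mul (a b : (ZMod q)ˣ) : (gd D (a * b) : MonoidAlgebra k G) = gd D a * gd D b := by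
  simp [gd, D.d_mul, MonoidAlgebra.single_mul_single]

lemma gd_one : (gd D 1 : MonoidAlgebra k G) = 1 := by
  simp [gd, d_one, MonoidAlgebra.one_def]

lemma gw_gw : (gw D * gw D : MonoidAlgebra k G) = 1 := by
  simp [gw, D.ww, MonoidAlgebra.one_def, MonoidAlgebra.single_mul_single]

lemma gw_gd (a : (ZMod q)ˣ) : (gw D * gd D a : MonoidAlgebra k G) = gd D a⁻¹ * gw D := by
  simp [gw, gd, D.wd, MonoidAlgebra.single_mul_single]

lemma gd_gn (a : (ZMod q)ˣ) (x : ZMod q) :
    (gd D a * gn D x : MonoidAlgebra k G) = gn D ((a : ZMod q) ^ 2 * x) * gd D a := by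
  simp [gn, gd, D.dn, MonoidAlgebra.single_mul_single]

lemma gwnw (a : (ZMod q)ˣ) : (gw D * gn D (a : ZMod q) * gw D : MonoidAlgebra k G) =
    gn D (-((a⁻¹ : (ZMod q)ˣ) : ZMod q)) * gw D * gd D a *
      gn D (-((a⁻¹ : (ZMod q)ˣ) : ZMod q)) := by
  simp only [gn, gd, gw, MonoidAlgebra.single_mul_single, mul_one]
  rw [D.wnw]

lemma gn_zero : (gn D 0 : MonoidAlgebra k G) = 1 := by
  simp [gn, n_zero, MonoidAlgebra.one_def]

lemma eU_def (c : ZMod q) : eU D ψ c = ∑ x, ψ (-(c * x)) • (gn D x : MonoidAlgebra k G) := by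
  simp only [eU, gn, MonoidAlgebra.smul_single, smul_eq_mul, mul_one]

lemma l_neg_one (l : (ZMod q)ˣ →* kˣ) : l (-1) = 1 := by
  have h : l (-1) * l (-1) = 1 := by rw [← map_mul]; simp
  have h2 : ((l (-1) : kˣ) : k) * (l (-1) : kˣ) = 1 := by
    rw [← Units.val_mul, h, Units.val_one]
  have h3 : (((l (-1) : kˣ) : k) - 1) * (((l (-1) : kˣ) : k) - 1) = 0 := by
    have : (2 : k) = 0 := CharTwo.two_eq_zero
    linear_combination h2 + (1 - ((l (-1) : kˣ) : k)) * this
  have h4 := sub_eq_zero.1 (mul_self_eq_zero.1 h3)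
  ext
  simpa using h4

variable (l : (ZMod q)ˣ →* kˣ)

lemma gn_eB (x : ZMod q) : gn D x * eB D l = eB D l := n_eB D l x

lemma eU_gn (c b : ZMod q) : eU D ψ c * gn D b = ψ (c * b) • eU D ψ c := eU_n D ψ c b

lemma key0 (hq : q % 4 = 3) (hψ : ψ.IsPrimitive) (c : ZMod q) (hc : c ≠ 0)
    (z : MonoidAlgebra k G) :
    ∃ s : k, s • (eU D ψ c * gw D * eB D l) = eU D ψ c * z * eB D l := by
  induction z using MonoidAlgebra.induction_linear with
  | zero => exact ⟨0, by simp⟩
  | add x y hx hy =>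
    obtain ⟨s, hs⟩ := hx
    obtain ⟨t, ht⟩ := hy
    exact ⟨s + t, by rw [add_smul, hs, ht, mul_add, add_mul]⟩
  | single g r =>
    have hr : (MonoidAlgebra.single g r : MonoidAlgebra k G) =
        r • MonoidAlgebra.single g 1 := by simp
    rcases D.cover g with ⟨x, a, h⟩ | ⟨x, a, y, h⟩
    · refine ⟨0, ?_⟩
      have h1 : (MonoidAlgebra.single g 1 : MonoidAlgebra k G) = gn D x * gd D a := by
        simp [gn, gd, h, MonoidAlgebra.single_mul_single]
      rw [hr, h1, zero_smul, mul_smul_comm, smul_mul_assoc, ← mul_assoc, eU_gn, smul_mul_assoc,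
        smul_mul_assoc, mul_assoc, d_eB D l hq, mul_smul_comm, eU_eB D ψ l (qne2 hq) hψ,
        if_neg hc]
      simp
    · refine ⟨r * (ψ (c * x) * (l a : k)), ?_⟩
      have h1 : (MonoidAlgebra.single g 1 : MonoidAlgebra k G) =
          gn D x * gw D * gd D a * gn D y := by
        simp [gn, gd, gw, h, MonoidAlgebra.single_mul_single]
      have h2 : eU D ψ c * (gn D x * gw D * gd D a * gn D y) * eB D l =
          (eU D ψ c * gn D x) * gw D * (gd D a * (gn D y * eB D l)) := by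
        simp only [mul_assoc]
      rw [hr, h1, mul_smul_comm, smul_mul_assoc, h2, gn_eB, eU_gn, d_eB D l hq, mul_smul_comm,
        smul_mul_assoc, smul_mul_assoc]
      rw [smul_smul, smul_smul]
      congr 1
      ring

end

end DIM3

section
variable {q : ℕ} [Fact q.Prime] {G : Type} [Group G] (D : BN q G)
  {k : Type u} [Field k] [CharP k 2] (ψ : AddChar (ZMod q) k)

open DIM3

theorem eig_ne (hq : q % 4 = 3) (hψ : ψ.IsPrimitive) (l : (ZMod q)ˣ →* kˣ) (c : ZMod q) :
    eU D ψ c * gw D * eB D l ≠ 0 := by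
  classical
  intro h0
  have h1 : (eU D ψ c * gw D * eB D l).coeff D.w = 1 := by
    have h2 : eU D ψ c * gw D * eB D l = ∑ x : ZMod q, ∑ a ∈ Sq q, ∑ y : ZMod q,
        MonoidAlgebra.single (D.n x * D.w * (D.d a * D.n y))
          (ψ (-(c * x)) * (((l a)⁻¹ : kˣ) : k)) := by
      simp only [eU, gw, eB]
      rw [Finset.sum_mul, Finset.sum_mul]
      refine Finset.sum_congr rfl fun x _ => ?_
      rw [Finset.mul_sum]
      refine Finset.sum_congr rfl fun a _ => ?_
      rw [Finset.mul_sum]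
      refine Finset.sum_congr rfl fun y _ => ?_
      rw [MonoidAlgebra.single_mul_single, MonoidAlgebra.single_mul_single, mul_one]
    have hw : ∀ x a y, D.n x * D.w * (D.d a * D.n y) = D.w → x = 0 ∧ (a = 1 ∨ a = -1) ∧ y = 0 := by
      intro x a y hh
      have := D.inj2 x a y 0 1 0 (by
        rw [n_zero, d_one, one_mul, mul_one, mul_one, mul_assoc, hh])
      simpa using this
    rw [h2]
    simp only [MonoidAlgebra.coeff_sum, Finsupp.coe_finset_sum, Finset.sum_apply]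
    rw [Finset.sum_eq_single (0 : ZMod q)]
    · rw [Finset.sum_eq_single (1 : (ZMod q)ˣ)]
      · rw [Finset.sum_eq_single (0 : ZMod q)]
        · rw [MonoidAlgebra.coeff_single_apply, if_pos]
          · simp
          · rw [n_zero, d_one, one_mul, mul_one, mul_one]
        · intro y _ hy
          rw [MonoidAlgebra.coeff_single_apply, if_neg]
          intro hh
          exact hy (hw _ _ _ hh).2.2
        · intro hh
          exact absurd (Finset.mem_univ _) hh
      · intro a ha ha1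
        apply Finset.sum_eq_zero
        intro y _
        rw [MonoidAlgebra.coeff_single_apply, if_neg]
        intro hh
        rcases (hw _ _ _ hh).2.1 with h3 | h3
        · exact ha1 h3
        · rw [h3, mem_Sq] at ha
          exact neg_one_not hq ha
      · intro hh
        exact absurd ((mem_Sq 1).2 (IsSquare.one)) hh
    · intro x _ hx
      apply Finset.sum_eq_zero
      intro a _
      apply Finset.sum_eq_zero
      intro y _
      rw [MonoidAlgebra.coeff_single_apply, if_neg]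
      intro hh
      exact hx (hw _ _ _ hh).1
    · intro hh
      exact absurd (Finset.mem_univ _) hh
  rw [h0] at h1
  simp at h1

theorem eig (hq : q % 4 = 3) (hψ : ψ.IsPrimitive) (l : (ZMod q)ˣ →* kˣ) (a : (ZMod q)ˣ) :
    hk D ψ a * (eU D ψ 1 * gw D * eB D l) = Kl ψ l a • (eU D ψ 1 * gw D * eB D l) := by
  have h1 : hk D ψ a * (eU D ψ 1 * gw D * eB D l) =
      eU D ψ 1 * gw D * gd D a * eU D ψ 1 * (gw D * eB D l) := by
    have : eU D ψ 1 * eU D ψ 1 = eU D ψ 1 := by
      rw [eU_mul D ψ (qne2 hq) hψ, if_pos rfl]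
    rw [hk]
    calc eU D ψ 1 * gw D * gd D a * eU D ψ 1 * (eU D ψ 1 * gw D * eB D l) =
        eU D ψ 1 * gw D * gd D a * (eU D ψ 1 * eU D ψ 1) * (gw D * eB D l) := by
          simp only [mul_assoc]
      _ = _ := by rw [this]
  have h2 : ∀ e : MonoidAlgebra k G, e * gw D * gd D a * eU D ψ 1 * (gw D * eB D l) =
      ∑ x, ψ (-x) • (e * (gw D * gd D a * gn D x * gw D) * eB D l) := by
    intro e
    rw [eU_def D ψ 1, Finset.mul_sum, Finset.sum_mul]
    refine Finset.sum_congr rfl fun x _ => ?_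
    rw [mul_smul_comm, smul_mul_assoc, one_mul]
    simp only [mul_assoc]
  have h3 : eU D ψ 1 * (gw D * gd D a * gn D 0 * gw D) * eB D l = 0 := by
    rw [gn_zero, mul_one, gw_gd, mul_assoc (gd D a⁻¹), gw_gw, mul_one, mul_assoc, d_eB D l hq,
      mul_smul_comm, eU_eB D ψ l (qne2 hq) hψ, if_neg one_ne_zero, smul_zero]
  have h4 : ∀ u : (ZMod q)ˣ, eU D ψ 1 * (gw D * gd D a * gn D (u : ZMod q) * gw D) * eB D l =
      (ψ (-(((a ^ 2 * u)⁻¹ : (ZMod q)ˣ) : ZMod q)) * (l (a * u) : k)) •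
        (eU D ψ 1 * gw D * eB D l) := by
    intro u
    set v : (ZMod q)ˣ := a ^ 2 * u with hv
    have hv' : (a : ZMod q) ^ 2 * (u : ZMod q) = (v : ZMod q) := by simp [hv]
    have h5 : (gw D * gd D a * gn D (u : ZMod q) * gw D : MonoidAlgebra k G) =
        gn D (-((v⁻¹ : (ZMod q)ˣ) : ZMod q)) * gw D * gd D v *
          gn D (-((v⁻¹ : (ZMod q)ˣ) : ZMod q)) * gd D a⁻¹ := by
      rw [← gwnw, mul_assoc (gw D) (gd D a), gd_gn, hv']
      have h6 : (gd D a * gw D : MonoidAlgebra k G) = gw D * gd D a⁻¹ := by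
        rw [gw_gd, inv_inv]
      simp only [mul_assoc]
      rw [h6]
    have h7 : eU D ψ 1 * (gn D (-((v⁻¹ : (ZMod q)ˣ) : ZMod q)) * gw D * gd D v *
          gn D (-((v⁻¹ : (ZMod q)ˣ) : ZMod q)) * gd D a⁻¹) * eB D l =
        (eU D ψ 1 * gn D (-((v⁻¹ : (ZMod q)ˣ) : ZMod q))) * gw D * (gd D v *
          (gn D (-((v⁻¹ : (ZMod q)ˣ) : ZMod q)) * (gd D a⁻¹ * eB D l))) := by
      simp only [mul_assoc]
    rw [h5, h7, d_eB D l hq, mul_smul_comm, gn_eB, mul_smul_comm, d_eB D l hq, eU_gn, one_mul]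
    simp only [mul_smul_comm, smul_mul_assoc, smul_smul]
    congr 1
    have h8 : l (a * u) = l a⁻¹ * l v := by
      rw [← map_mul, hv]
      congr 1
      rw [pow_two, mul_assoc, inv_mul_cancel_left]
    rw [h8, Units.val_mul]
    ring
  rw [h1, h2, sum_split, h3, smul_zero, zero_add, Kl, Finset.sum_smul]
  refine Fintype.sum_equiv (Equiv.mulLeft (-a)) _ _ fun u => ?_
  rw [h4, smul_smul, Equiv.coe_mulLeft]
  congr 1
  have h9 : l (-a * u) = l (a * u) := by
    rw [neg_mul, ← neg_one_mul, map_mul, l_neg_one, one_mul]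
  rw [h9, ← mul_assoc, ← AddChar.map_add_eq_mul, mul_comm]
  congr 2
  have ha : (a : ZMod q) ≠ 0 := a.ne_zero
  have hu : (u : ZMod q) ≠ 0 := u.ne_zero
  simp only [Units.val_inv_eq_inv_val, Units.val_mul, Units.val_neg, Units.val_pow_eq_pow_val]
  field_simp

theorem corUB_rank (hq : q % 4 = 3) (hψ : ψ.IsPrimitive) (l : (ZMod q)ˣ →* kˣ) (c : ZMod q)
    (hc : c ≠ 0) : Module.finrank k (cor k (eU D ψ c) (eB D l)) = 1 := by
  have hm : eU D ψ c * gw D * eB D l ∈ cor k (eU D ψ c) (eB D l) := by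
    rw [mem_cor]
    constructor
    · rw [← mul_assoc, ← mul_assoc, eU_mul D ψ (qne2 hq) hψ, if_pos rfl]
    · rw [mul_assoc, eB_mul D l hq, if_pos rfl]
  have hne : (⟨_, hm⟩ : cor k (eU D ψ c) (eB D l)) ≠ 0 := by
    intro h
    exact eig_ne D ψ hq hψ l c (congrArg Subtype.val h)
  rw [finrank_eq_one_iff_of_nonzero' _ hne]
  rintro ⟨z, hz⟩
  obtain ⟨s, hs⟩ := key0 D ψ l hq hψ c hc z
  refine ⟨s, ?_⟩
  ext1
  change s • (eU D ψ c * gw D * eB D l) = z
  rw [hs, (mem_cor.1 hz).1, (mem_cor.1 hz).2]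

lemma DIM3.shift (e : MonoidAlgebra k G) (a : (ZMod q)ˣ) (c : ZMod q) :
    Module.finrank k (cor k (eU D ψ c) e) =
      Module.finrank k (cor k (eU D ψ (c * ((a⁻¹ : (ZMod q)ˣ) : ZMod q) ^ 2)) e) := by
  have h1 : ∀ z ∈ cor k (eU D ψ c) e,
      gd D a * z ∈ cor k (eU D ψ (c * ((a⁻¹ : (ZMod q)ˣ) : ZMod q) ^ 2)) e := by
    intro z hz
    rw [mem_cor] at hz ⊢
    constructor
    · rw [← mul_assoc, ← d_eU, mul_assoc, hz.1]
    · rw [mul_assoc, hz.2]
  have h2 : ∀ z ∈ cor k (eU D ψ (c * ((a⁻¹ : (ZMod q)ˣ) : ZMod q) ^ 2)) e,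
      gd D a⁻¹ * z ∈ cor k (eU D ψ c) e := by
    intro z hz
    rw [mem_cor] at hz ⊢
    constructor
    · have h3 := d_eU D ψ a⁻¹ (c * ((a⁻¹ : (ZMod q)ˣ) : ZMod q) ^ 2)
      have h4 : c * ((a⁻¹ : (ZMod q)ˣ) : ZMod q) ^ 2 * ((a⁻¹⁻¹ : (ZMod q)ˣ) : ZMod q) ^ 2 = c := by
        rw [mul_assoc, ← mul_pow, ← Units.val_mul, mul_inv_cancel]
        simp
      rw [h4] at h3
      rw [← mul_assoc, ← h3, mul_assoc, hz.1]
    · rw [mul_assoc, hz.2]
  refine LinearEquiv.finrank_eq
    { toFun := fun z => ⟨gd D a * z.1, h1 z.1 z.2⟩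
      map_add' := fun x y => Subtype.ext (mul_add _ _ _)
      map_smul' := fun c x => Subtype.ext (mul_smul_comm _ _ _)
      invFun := fun z => ⟨gd D a⁻¹ * z.1, h2 z.1 z.2⟩
      left_inv := fun z => Subtype.ext (by
        change gd D a⁻¹ * (gd D a * z.1) = z.1
        rw [← mul_assoc, ← gd_mul, inv_mul_cancel, gd_one, one_mul])
      right_inv := fun z => Subtype.ext (by
        change gd D a * (gd D a⁻¹ * z.1) = z.1
        rw [← mul_assoc, ← gd_mul, mul_inv_cancel, gd_one, one_mul]) }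

lemma DIM3.finrank_Sq (e : MonoidAlgebra k G) (c : ZMod q) (u : (ZMod q)ˣ) (hu : u ∈ Sq q) :
    Module.finrank k (cor k (eU D ψ (c * (u : ZMod q))) e) =
      Module.finrank k (cor k (eU D ψ c) e) := by
  obtain ⟨a, ha⟩ := (mem_Sq u).1 hu
  have h : c * (u : ZMod q) * ((a⁻¹ : (ZMod q)ˣ) : ZMod q) ^ 2 = c := by
    rw [ha, mul_assoc, pow_two, ← Units.val_mul, ← Units.val_mul, ← mul_inv, mul_inv_cancel,
      Units.val_one, mul_one]
  rw [DIM3.shift D ψ e a (c * (u : ZMod q)), h]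

/-- decomposition of a projective module under the Borel subgroup -/
theorem borel_rank [IsAlgClosed k] (hq : q % 4 = 3) (hψ : ψ.IsPrimitive) (e : MonoidAlgebra k G)
    (he : e * e = e) :
    Module.finrank k (cor k (1 : MonoidAlgebra k G) e) =
      ∑ᶠ l : (ZMod q)ˣ →* kˣ, Module.finrank k (cor k (eB D l) e) +
      (q - 1) / 2 * (Module.finrank k (cor k (eU D ψ 1) e) +
        Module.finrank k (cor k (eU D ψ (-1)) e)) := by
  classical
  haveI : Finite G := fin D
  haveI : FiniteDimensional k (MonoidAlgebra k G) := fd (k := k) (G := G)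
  rw [← sum_eU D ψ (qne2 hq) hψ, finrank_cor_sum_left (k := k)]
  rotate_left
  · intro c
    rw [eU_mul D ψ (qne2 hq) hψ, if_pos rfl]
  · intro c c' hc
    rw [eU_mul D ψ (qne2 hq) hψ, if_neg hc]
  rw [sum_split, sum_sq hq]
  have h1 : ∀ u ∈ Sq q, Module.finrank k (cor k (eU D ψ (u : ZMod q)) e) =
      Module.finrank k (cor k (eU D ψ 1) e) := by
    intro u hu
    have := DIM3.finrank_Sq D ψ e 1 u hu
    rwa [one_mul] at this
  have h2 : ∀ u ∈ Sq q, Module.finrank k (cor k (eU D ψ ((-u : (ZMod q)ˣ) : ZMod q)) e) =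
      Module.finrank k (cor k (eU D ψ (-1)) e) := by
    intro u hu
    have := DIM3.finrank_Sq D ψ e (-1) u hu
    rwa [neg_one_mul] at this
  rw [Finset.sum_congr rfl h1, Finset.sum_congr rfl h2, Finset.sum_const, Finset.sum_const,
    card_Sq hq, smul_eq_mul, smul_eq_mul, ← mul_add]
  congr 1
  -- the term c = 0
  have hcard : Nat.card ((ZMod q)ˣ →* kˣ) = (q - 1) / 2 := by
    apply HOMC (k := k) (C := (ZMod q)ˣ) 1 ((q - 1) / 2)
    · rw [Nat.odd_iff]; omega
    · rw [Nat.card_eq_fintype_card, ZMod.card_units]; omega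
  haveI : Finite ((ZMod q)ˣ →* kˣ) := by
    apply Nat.finite_of_card_ne_zero
    rw [hcard]
    have := (Fact.out : q.Prime).two_le
    omega
  letI : Fintype ((ZMod q)ˣ →* kˣ) := Fintype.ofFinite _
  let E := Fintype.equivFin ((ZMod q)ˣ →* kˣ)
  rw [← sum_eB D ψ hq, finsum_eq_sum_of_fintype, finsum_eq_sum_of_fintype,
    ← Equiv.sum_comp E.symm, ← Equiv.sum_comp E.symm, finrank_cor_sum_left (k := k)]
  · intro i
    rw [eB_mul D _ hq, if_pos rfl]
  · intro i j hij
    rw [eB_mul D _ hq, if_neg]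
    exact fun h => hij (E.symm.injective h)

end

end CM
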